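import Pool.Agent.H91.HMS.RLib

/-!
# HMS box 2: sizes after one cut
-/

set_option autoImplicit false

namespace Pool.HMS

open TMLib Finset

private theorem RSZ1_card {D a : ℕ} (ha : a ≤ D) :
    ((range (D + 1)).filter (· ≠ a)).card = D := by
  rw [Finset.filter_ne', Finset.card_erase_of_mem (Finset.mem_range.2 (by omega)),
    Finset.card_range]
  rfl

theorem rsz1_thm : S_RSZ1 := by
  intro D a P Q M n st ha hR hn
  have hM0 : (0 : ℚ) ≤ M := by positivity
  have hDD : (D : ℚ) ≤ (D : ℚ) ^ 2 := by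
    have : D ≤ D ^ 2 := by nlinarith [Nat.zero_le D, Nat.le_self_pow (n := 2) (by norm_num) D]
    exact_mod_cast this
  have hDD3 : (D : ℚ) ^ 2 ≤ (D : ℚ) ^ 3 := by
    rcases Nat.eq_zero_or_pos D with h | h
    · rw [h]; norm_num
    · exact pow_le_pow_right₀ (by exact_mod_cast h) (by norm_num)
  have hD0 : (0 : ℚ) ≤ D := by positivity
  have habs : ∀ j ≤ D, |n j| ≤ 4 * (D : ℚ) ^ 2 := by
    intro j hj
    obtain ⟨-, h1, h2⟩ := hn j hj
    rw [abs_le]
    constructor <;> linarith
  have hq : ∀ j ≤ D, 12 * (D : ℚ) ^ 3 ≤ 16 * (D : ℚ) ^ 3 - n j ∧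
      16 * (D : ℚ) ^ 3 - n j ≤ 20 * (D : ℚ) ^ 3 := by
    intro j hj
    obtain ⟨-, h1, h2⟩ := hn j hj
    constructor <;> linarith
  have hz : ∀ j, ∃ q : ℕ, j ≤ D → (q : ℚ) = 16 * (D : ℚ) ^ 3 - n j := by
    intro j
    by_cases hj : j ≤ D
    · obtain ⟨⟨z, hz⟩, -, -⟩ := hn j hj
      refine ⟨(16 * (D : ℤ) ^ 3 - z).toNat, fun _ => ?_⟩
      have h1 : (0 : ℚ) ≤ ((16 * (D : ℤ) ^ 3 - z : ℤ) : ℚ) := by
        have h2 := (hq j hj).1
        rw [hz] at h2
        push_cast
        have : (0 : ℚ) ≤ 12 * (D : ℚ) ^ 3 := by positivity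
        linarith
      have h2 : (0 : ℤ) ≤ 16 * (D : ℤ) ^ 3 - z := by exact_mod_cast h1
      have h3 : (((16 * (D : ℤ) ^ 3 - z).toNat : ℤ) : ℚ) = ((16 * (D : ℤ) ^ 3 - z : ℤ) : ℚ) := by
        rw [Int.toNat_of_nonneg h2]
      rw [hz]
      push_cast at h3
      exact h3
    · exact ⟨0, fun h => absurd h hj⟩
  choose q hqq using hz
  have hcut1 : (rCut D a n st).1 = tabM (D + 1) D fun j i => if j = a then ent st.1 a i else
      ent st.1 a i + 16 * D ^ 3 / (16 * D ^ 3 - n j) * (ent st.1 j i - ent st.1 a i) := rfl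
  have hcut2 : (rCut D a n st).2.1 = tabM (D + 1) (D + 1) fun j i => if j = a then
        16 * D ^ 3 * ent st.2.1 a i + ∑ k ∈ (range (D + 1)).filter (· ≠ a), n k * ent st.2.1 k i
      else (16 * D ^ 3 - n j) * ent st.2.1 j i := rfl
  have hcut3 : (rCut D a n st).2.2 = 16 * D ^ 3 * st.2.2 := rfl
  have hI16 : IsI (16 * (D : ℚ) ^ 3) := ⟨16 * (D : ℤ) ^ 3, by push_cast; ring⟩
  refine ⟨?_, ?_, ?_, ?_, ?_, ?_, ?_, ?_, ?_⟩
  · rw [hcut1]; exact length_tabM _ _ _
  · intro r hr
    rw [hcut1] at hr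
    exact length_of_mem_tabM hr
  · rw [hcut2]; exact length_tabM _ _ _
  · intro r hr
    rw [hcut2] at hr
    exact length_of_mem_tabM hr
  · obtain ⟨d, hd0, hdP, hd⟩ := hR.denV
    rcases Nat.eq_zero_or_pos D with hD | hD
    · refine ⟨d, hd0, hdP.trans ?_, fun i j => ?_⟩
      · rw [hD]; simp
      · rw [hcut1, ent_tabM, if_neg (by omega), mul_zero]
        exact IsI.zero
    · have hD1 : (0 : ℚ) < (D : ℚ) ^ 3 := by positivity
      have hqpos : ∀ j ≤ D, 0 < q j := by
        intro j hj
        have h1 := hqq j hj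
        have h2 := (hq j hj).1
        have h3 : (0 : ℚ) < q j := by rw [h1]; linarith
        exact_mod_cast h3
      refine ⟨d * ∏ j ∈ (range (D + 1)).filter (· ≠ a), q j, ?_, ?_, fun i j => ?_⟩
      · refine Nat.mul_pos hd0 (Finset.prod_pos fun j hj => ?_)
        rw [Finset.mem_filter, Finset.mem_range] at hj
        exact hqpos j (by omega)
      · refine Nat.mul_le_mul hdP ?_
        have h1 := Finset.prod_le_pow_card ((range (D + 1)).filter (· ≠ a)) q (20 * D ^ 3 + 1)
          (fun j hj => by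
            rw [Finset.mem_filter, Finset.mem_range] at hj
            have h2 := (hq j (by omega)).2
            rw [← hqq j (by omega)] at h2
            have h3 : q j ≤ 20 * D ^ 3 := by exact_mod_cast h2
            omega)
        rwa [RSZ1_card ha] at h1
      · rw [hcut1, ent_tabM]
        split_ifs with h1 h2
        · have h3 : ((d * ∏ j ∈ (range (D + 1)).filter (· ≠ a), q j : ℕ) : ℚ) * ent st.1 a j =
              ((∏ j ∈ (range (D + 1)).filter (· ≠ a), q j : ℕ) : ℚ) * (d * ent st.1 a j) := by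
            push_cast; ring
          rw [h3]
          exact (IsI.nat _).mul (hd a j)
        · have hi : i ≤ D := by omega
          have him : i ∈ (range (D + 1)).filter (· ≠ a) := by
            rw [Finset.mem_filter, Finset.mem_range]; exact ⟨h1.1, h2⟩
          have h4 : ∏ j ∈ (range (D + 1)).filter (· ≠ a), q j =
              q i * ∏ j ∈ ((range (D + 1)).filter (· ≠ a)).erase i, q j :=
            (Finset.mul_prod_erase _ _ him).symm
          set R : ℕ := ∏ j ∈ ((range (D + 1)).filter (· ≠ a)).erase i, q j with hRdef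
          have h5 : (16 * (D : ℚ) ^ 3 - n i) = q i := (hqq i hi).symm
          have h6 : (q i : ℚ) ≠ 0 := by
            have := hqpos i hi
            positivity
          have h7 : ((d * ∏ j ∈ (range (D + 1)).filter (· ≠ a), q j : ℕ) : ℚ) *
              (ent st.1 a j + 16 * D ^ 3 / (16 * D ^ 3 - n i) * (ent st.1 i j - ent st.1 a j)) =
              ((q i * R : ℕ) : ℚ) * (d * ent st.1 a j) +
                16 * (D : ℚ) ^ 3 * ((R : ℕ) : ℚ) * (d * ent st.1 i j - d * ent st.1 a j) := by
            rw [h4, h5]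
            push_cast
            field_simp
          rw [h7]
          exact ((IsI.nat _).mul (hd a j)).add
            ((hI16.mul (IsI.nat _)).mul ((hd i j).sub (hd a j)))
        · rw [mul_zero]; exact IsI.zero
  · obtain ⟨d, hd0, hdQ, hd, hdS⟩ := hR.denG
    refine ⟨d, hd0, hdQ, fun i j => ?_, ?_⟩
    · rw [hcut2, ent_tabM]
      split_ifs with h1 h2
      · have h3 : (d : ℚ) * (16 * D ^ 3 * ent st.2.1 a j +
            ∑ k ∈ (range (D + 1)).filter (· ≠ a), n k * ent st.2.1 k j) =
            16 * (D : ℚ) ^ 3 * (d * ent st.2.1 a j) +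
            ∑ k ∈ (range (D + 1)).filter (· ≠ a), n k * (d * ent st.2.1 k j) := by
          rw [mul_add, Finset.mul_sum]
          congr 1
          · ring
          · exact Finset.sum_congr rfl fun k _ => by ring
        rw [h3]
        refine (hI16.mul (hd a j)).add (IsI.sum fun k hk => ?_)
        rw [Finset.mem_filter, Finset.mem_range] at hk
        exact (hn k (by omega)).1.mul (hd k j)
      · have h3 : (d : ℚ) * ((16 * D ^ 3 - n i) * ent st.2.1 i j) =
            (16 * (D : ℚ) ^ 3 - n i) * (d * ent st.2.1 i j) := by ring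
        rw [h3]
        exact (hI16.sub (hn i (by omega)).1).mul (hd i j)
      · rw [mul_zero]; exact IsI.zero
    · rw [hcut3]
      have h3 : (d : ℚ) * (16 * D ^ 3 * st.2.2) = 16 * (D : ℚ) ^ 3 * (d * st.2.2) := by ring
      rw [h3]
      exact hI16.mul hdS
  · intro i j
    rw [hcut1, ent_tabM]
    have hMM : (M : ℚ) * 4 ≤ ((M * (20 * D ^ 3 + 4) : ℕ) : ℚ) := by
      push_cast
      have : (0 : ℚ) ≤ (M : ℚ) * (20 * (D : ℚ) ^ 3) := by positivity
      linarith
    split_ifs with h1 h2
    · have := hR.boundV a j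
      linarith
    · have hD : 1 ≤ D := by omega
      have hD1 : (0 : ℚ) < (D : ℚ) ^ 3 := by positivity
      have hi : i ≤ D := by omega
      have h3 := (hq i hi).1
      have h4 : (0 : ℚ) < 16 * (D : ℚ) ^ 3 - n i := by linarith
      have h5 : 16 * (D : ℚ) ^ 3 / (16 * (D : ℚ) ^ 3 - n i) ≤ 4 / 3 := by
        rw [div_le_div_iff₀ h4 (by norm_num)]
        linarith
      have h6 : 0 ≤ 16 * (D : ℚ) ^ 3 / (16 * (D : ℚ) ^ 3 - n i) := by positivity
      have h7 := hR.boundV a j
      have h8 := hR.boundV i j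
      have h9 : |ent st.1 i j - ent st.1 a j| ≤ 2 * M := (abs_sub _ _).trans (by linarith)
      have h10 : |16 * (D : ℚ) ^ 3 / (16 * (D : ℚ) ^ 3 - n i) * (ent st.1 i j - ent st.1 a j)| ≤
          4 / 3 * (2 * (M : ℚ)) := by
        rw [abs_mul, abs_of_nonneg h6]
        exact mul_le_mul h5 h9 (abs_nonneg _) (by norm_num)
      refine (abs_add_le _ _).trans ?_
      linarith
    · rw [abs_zero]; positivity
  · intro i j
    rw [hcut2, ent_tabM]
    have hMM : 20 * (D : ℚ) ^ 3 * M ≤ ((M * (20 * D ^ 3 + 4) : ℕ) : ℚ) := by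
      push_cast
      linarith
    split_ifs with h1 h2
    · have h3 : |∑ k ∈ (range (D + 1)).filter (· ≠ a), n k * ent st.2.1 k j| ≤
          4 * (D : ℚ) ^ 3 * M := by
        refine (Finset.abs_sum_le_sum_abs _ _).trans ?_
        have h4 : ∀ k ∈ (range (D + 1)).filter (· ≠ a), |n k * ent st.2.1 k j| ≤
            4 * (D : ℚ) ^ 2 * M := by
          intro k hk
          rw [Finset.mem_filter, Finset.mem_range] at hk
          rw [abs_mul]
          exact mul_le_mul (habs k (by omega)) (hR.boundG k j) (abs_nonneg _) (by positivity)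
        refine (Finset.sum_le_sum h4).trans ?_
        rw [Finset.sum_const, RSZ1_card ha, nsmul_eq_mul]
        apply le_of_eq
        ring
      have h5 : |16 * (D : ℚ) ^ 3 * ent st.2.1 a j| ≤ 16 * (D : ℚ) ^ 3 * M := by
        rw [abs_mul, abs_of_nonneg (by positivity)]
        exact mul_le_mul_of_nonneg_left (hR.boundG a j) (by positivity)
      refine (abs_add_le _ _).trans ?_
      linarith
    · have hi : i ≤ D := by omega
      have h3 := (hq i hi).1
      have h4 : (0 : ℚ) ≤ 12 * (D : ℚ) ^ 3 := by positivity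
      rw [abs_mul, abs_of_nonneg (h4.trans h3)]
      exact (mul_le_mul (hq i hi).2 (hR.boundG i j) (abs_nonneg _) (by positivity)).trans hMM
    · rw [abs_zero]; positivity
  · rw [hcut3, abs_mul, abs_of_nonneg (by positivity)]
    have h1 := mul_le_mul_of_nonneg_left hR.boundS (show (0 : ℚ) ≤ 16 * (D : ℚ) ^ 3 by positivity)
    refine h1.trans ?_
    push_cast
    have : (0 : ℚ) ≤ (M : ℚ) * (4 * (D : ℚ) ^ 3) := by positivity
    linarith

end Pool.HMS
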