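import Pool.Agent.H91.HMS.RLib

/-!
# HMS box 2: the thick case
-/

set_option autoImplicit false

namespace Pool.HMS

open TMLib Finset

private theorem RTHICK_inv {D : ℕ} {U W : Mat} (h : Unimod D U W) {c c' : ℕ} (hc : c < D)
    (hc' : c' < D) : ∑ i ∈ range D, ent W i c' * ent U i c = if c' = c then 1 else 0 := by
  set A : Matrix (Fin D) (Fin D) ℚ := Matrix.of fun i c => ent U i c with hA
  set B : Matrix (Fin D) (Fin D) ℚ := Matrix.of fun c j => ent W j c with hB
  have h1 : A * B = 1 := by
    ext i j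
    rw [Matrix.mul_apply, Matrix.one_apply]
    have := h.inv i i.2 j j.2
    rw [Finset.sum_range] at this
    simpa [hA, hB, Fin.ext_iff] using this
  have h2 : B * A = 1 := mul_eq_one_comm.1 h1
  have h3 := congrFun (congrFun h2 ⟨c', hc'⟩) ⟨c, hc⟩
  rw [Matrix.mul_apply, Matrix.one_apply] at h3
  rw [Finset.sum_range]
  simpa [hA, hB, Fin.ext_iff] using h3

/-- Rounding of a point in the coordinates of the basis `U`. -/
private def RTHICK_rd (D : ℕ) (U W : Mat) (v : ℕ → ℚ) : Vec :=
  tab D fun c => ∑ i ∈ range D,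
    ((⌊(∑ c' ∈ range D, ent W i c' * v c') + 1 / 2⌋ : ℤ) : ℚ) * ent U i c

private theorem RTHICK_lat {D : ℕ} {U W : Mat} (h : Unimod D U W) (v : ℕ → ℚ) :
    Lat D (fn (RTHICK_rd D U W v)) := by
  refine ⟨supp_tab _ _, fun c => ?_⟩
  unfold RTHICK_rd
  rw [fn_tab]
  split_ifs
  · exact IsI.sum fun i _ => (IsI.int _).mul (h.intU i c)
  · exact IsI.zero

private theorem RTHICK_diff {D : ℕ} {U W : Mat} (h : Unimod D U W) (v s : ℕ → ℚ) :
    lin D s (fun c => v c - fn (RTHICK_rd D U W v) c) =
      ∑ i ∈ range D, ((∑ c' ∈ range D, ent W i c' * v c') -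
        ((⌊(∑ c' ∈ range D, ent W i c' * v c') + 1 / 2⌋ : ℤ) : ℚ)) * lin D s (ent U i) := by
  have h1 : ∀ c < D, v c = ∑ i ∈ range D, (∑ c' ∈ range D, ent W i c' * v c') * ent U i c := by
    intro c hc
    simp_rw [Finset.sum_mul]
    rw [Finset.sum_comm]
    have h2 : ∀ c' ∈ range D, ∑ i ∈ range D, ent W i c' * v c' * ent U i c =
        if c' = c then v c else 0 := by
      intro c' hc'
      have h3 := RTHICK_inv h hc (Finset.mem_range.1 hc')
      have h4 : ∑ i ∈ range D, ent W i c' * v c' * ent U i c =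
          v c' * ∑ i ∈ range D, ent W i c' * ent U i c := by
        rw [Finset.mul_sum]
        exact Finset.sum_congr rfl fun i _ => by ring
      rw [h4, h3]
      split_ifs with h5
      · rw [h5, mul_one]
      · rw [mul_zero]
    rw [Finset.sum_congr rfl h2, Finset.sum_ite_eq' (range D) c fun _ => v c,
      if_pos (Finset.mem_range.2 hc)]
  unfold lin
  have h6 : ∀ c ∈ range D, s c * (v c - fn (RTHICK_rd D U W v) c) =
      ∑ i ∈ range D, ((∑ c' ∈ range D, ent W i c' * v c') -
        ((⌊(∑ c' ∈ range D, ent W i c' * v c') + 1 / 2⌋ : ℤ) : ℚ)) * (s c * ent U i c) := by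
    intro c hc
    have hc1 := Finset.mem_range.1 hc
    have h7 : fn (RTHICK_rd D U W v) c = ∑ i ∈ range D,
        ((⌊(∑ c' ∈ range D, ent W i c' * v c') + 1 / 2⌋ : ℤ) : ℚ) * ent U i c := by
      unfold RTHICK_rd
      rw [fn_tab, if_pos hc1]
    rw [h7]
    conv_lhs => rw [h1 c hc1]
    rw [← Finset.sum_sub_distrib, Finset.mul_sum]
    exact Finset.sum_congr rfl fun i _ => by ring
  rw [Finset.sum_congr rfl h6, Finset.sum_comm]
  exact Finset.sum_congr rfl fun i _ => by rw [Finset.mul_sum]

private theorem RTHICK_round (a : ℚ) : |a - ((⌊a + 1 / 2⌋ : ℤ) : ℚ)| ≤ 1 / 2 := by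
  have h1 := Int.floor_le (a + 1 / 2)
  have h2 := Int.lt_floor_add_one (a + 1 / 2)
  rw [abs_le]
  constructor <;> linarith

theorem rthick_thm : S_RTHICK := by
  intro D K st X U W hD hR hL hin
  have hS : 0 < st.2.2 := hR.pos
  have hDq : (1 : ℚ) ≤ D := by exact_mod_cast hD
  have hrho := rhoD_pos D
  -- the values of the functionals at the basis vectors
  have hval : ∀ k < D, ∀ i < D,
      |lin D (fun c => ent st.2.1 (k + 1) (c + 1) / st.2.2) (ent U i)| ≤ rhoD D / D ^ 2 := by
    intro k hk i hi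
    have h1 := hL.thick_spec rfl i hi
    have h2 : ∀ k' ∈ range D, (∑ c ∈ range D, ent U i c * ent (rMat D st) c k') ^ 2 =
        (st.2.2 * lin D (fun c => ent st.2.1 (k' + 1) (c + 1) / st.2.2) (ent U i)) ^ 2 := by
      intro k' hk'
      congr 1
      unfold lin
      rw [Finset.mul_sum]
      refine Finset.sum_congr rfl fun c hc => ?_
      unfold rMat
      rw [ent_tabM, if_pos ⟨Finset.mem_range.1 hc, Finset.mem_range.1 hk'⟩]
      field_simp
    rw [Finset.sum_congr rfl h2] at h1
    have h3 : (st.2.2 * lin D (fun c => ent st.2.1 (k + 1) (c + 1) / st.2.2) (ent U i)) ^ 2 ≤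
        ∑ k' ∈ range D,
          (st.2.2 * lin D (fun c => ent st.2.1 (k' + 1) (c + 1) / st.2.2) (ent U i)) ^ 2 :=
      Finset.single_le_sum (f := fun k' =>
          (st.2.2 * lin D (fun c => ent st.2.1 (k' + 1) (c + 1) / st.2.2) (ent U i)) ^ 2)
        (fun _ _ => sq_nonneg _) (Finset.mem_range.2 hk)
    have h4 : (D : ℚ) * 2 ^ (D - 1) * (st.2.2 ^ 2 * h0 D) = (st.2.2 * (rhoD D / D ^ 2)) ^ 2 := by
      unfold h0
      have : (0 : ℚ) < D := by linarith
      field_simp
    have h5 := (h3.trans h1).trans_eq h4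
    have h6 := abs_le_of_sq_le_sq h5 (by positivity)
    rw [abs_mul, abs_of_pos hS] at h6
    exact le_of_mul_le_mul_left h6 hS
  -- the linear parts sum to zero
  have hlin0 : ∀ x : ℕ → ℚ, lin D (fun c => ent st.2.1 0 (c + 1) / st.2.2) x =
      -∑ k ∈ range D, lin D (fun c => ent st.2.1 (k + 1) (c + 1) / st.2.2) x := by
    intro x
    have h1 := hR.one x
    have h2 := hR.one 0
    have h3 : ∑ j ∈ range (D + 1), lin D (fun c => ent st.2.1 j (c + 1) / st.2.2) x = 0 := by
      have h4 : ∀ j ∈ range (D + 1), lin D (fun c => ent st.2.1 j (c + 1) / st.2.2) x =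
          (aff D (ent st.2.1 j) x - aff D (ent st.2.1 j) 0) / st.2.2 := by
        intro j _
        rw [aff_sub]
        unfold lin
        rw [Finset.sum_div]
        refine Finset.sum_congr rfl fun c _ => ?_
        simp only [Pi.zero_apply, sub_zero]
        ring
      rw [Finset.sum_congr rfl h4, ← Finset.sum_div, Finset.sum_sub_distrib, h1, h2, sub_self,
        zero_div]
    rw [Finset.sum_range_succ'] at h3
    linarith
  -- rounding error
  have herr : ∀ (v : ℕ → ℚ) (j : ℕ), j ≤ D →
      |lin D (fun c => ent st.2.1 j (c + 1) / st.2.2)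
        (fun c => v c - fn (RTHICK_rd D U W v) c)| ≤ rhoD D := by
    intro v
    have h1 : ∀ k < D, |lin D (fun c => ent st.2.1 (k + 1) (c + 1) / st.2.2)
        (fun c => v c - fn (RTHICK_rd D U W v) c)| ≤ rhoD D / (2 * D) := by
      intro k hk
      rw [RTHICK_diff hL.uni]
      refine (Finset.abs_sum_le_sum_abs _ _).trans ?_
      have h2 : ∀ i ∈ range D, |((∑ c' ∈ range D, ent W i c' * v c') -
          ((⌊(∑ c' ∈ range D, ent W i c' * v c') + 1 / 2⌋ : ℤ) : ℚ)) *
            lin D (fun c => ent st.2.1 (k + 1) (c + 1) / st.2.2) (ent U i)| ≤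
          1 / 2 * (rhoD D / D ^ 2) := by
        intro i hi
        rw [abs_mul]
        exact mul_le_mul (RTHICK_round _) (hval k hk i (Finset.mem_range.1 hi)) (abs_nonneg _)
          (by norm_num)
      refine (Finset.sum_le_sum h2).trans ?_
      rw [Finset.sum_const, Finset.card_range, nsmul_eq_mul]
      apply le_of_eq
      have : (0 : ℚ) < D := by linarith
      field_simp
    intro j hj
    rcases j with _ | k
    · rw [hlin0, abs_neg]
      refine (Finset.abs_sum_le_sum_abs _ _).trans ?_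
      refine (Finset.sum_le_sum fun k hk => h1 k (Finset.mem_range.1 hk)).trans ?_
      rw [Finset.sum_const, Finset.card_range, nsmul_eq_mul]
      have h3 : (D : ℚ) * (rhoD D / (2 * D)) = rhoD D / 2 := by
        have : (0 : ℚ) < D := by linarith
        field_simp
      rw [h3]
      linarith
    · refine (h1 k (by omega)).trans ?_
      exact div_le_self hrho.le (by linarith)
  have haff : ∀ (j : ℕ) (x : ℕ → ℚ), aff D (fun i => ent st.2.1 j i / st.2.2) x =
      aff D (ent st.2.1 j) x / st.2.2 := by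
    intro j x
    unfold aff
    rw [add_div, Finset.sum_div]
    congr 1
    exact Finset.sum_congr rfl fun i _ => by ring
  have hrz : rZ D st.1 U W =
      RTHICK_rd D U W (fun c' => (∑ j ∈ range (D + 1), ent st.1 j c') / (D + 1)) := rfl
  have hlat : Lat D (fn (rZ D st.1 U W)) := by
    rw [hrz]
    exact RTHICK_lat hL.uni _
  refine ⟨length_tab _ _, hlat, fun j i => ent st.2.1 j i / st.2.2, ?_, ?_, ?_, ?_, ?_⟩
  · intro x
    rw [Finset.sum_congr rfl fun j _ => haff j x, ← Finset.sum_div, hR.one x, div_self hS.ne']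
  · intro x hx j hj
    rw [haff]
    exact div_nonneg (hR.sub x hx j (Nat.lt_succ_iff.1 (Finset.mem_range.1 hj))) hS.le
  · intro x hx hg
    refine hin x hx fun j hj => ?_
    have h1 := hg j hj
    rw [haff, le_div_iff₀ hS] at h1
    exact h1
  · intro v _
    refine ⟨fn (RTHICK_rd D U W v), RTHICK_lat hL.uni v, fun j hj => ?_⟩
    exact herr v j (Nat.lt_succ_iff.1 (Finset.mem_range.1 hj))
  · intro j hj
    have hj1 := Nat.lt_succ_iff.1 (Finset.mem_range.1 hj)
    set v : ℕ → ℚ := fun c' => (∑ j ∈ range (D + 1), ent st.1 j c') / (D + 1) with hv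
    have h1 : aff D (ent st.2.1 j) v = st.2.2 / (D + 1) := by
      have h2 : v = fun c' => ∑ j ∈ range (D + 1), (1 / ((D : ℚ) + 1)) * ent st.1 j c' := by
        funext c'
        rw [hv, ← Finset.mul_sum]
        ring
      rw [h2, aff_comb D (ent st.2.1 j) (range (D + 1)) (fun _ => 1 / ((D : ℚ) + 1))
        (fun j => ent st.1 j)]
      · have h3 : ∀ i ∈ range (D + 1), 1 / ((D : ℚ) + 1) * aff D (ent st.2.1 j) (ent st.1 i) =
            if j = i then 1 / ((D : ℚ) + 1) * st.2.2 else 0 := by
          intro i hi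
          rw [hR.dual j hj1 i (Nat.lt_succ_iff.1 (Finset.mem_range.1 hi))]
          split_ifs <;> ring
        rw [Finset.sum_congr rfl h3, Finset.sum_ite_eq, if_pos hj]
        ring
      · rw [Finset.sum_const, Finset.card_range, nsmul_eq_mul]
        push_cast
        have : (D : ℚ) + 1 ≠ 0 := by positivity
        field_simp
    have h4 := herr v j hj1
    have h5 := aff_sub D (fun i => ent st.2.1 j i / st.2.2) v (fn (rZ D st.1 U W))
    have h6 : aff D (fun i => ent st.2.1 j i / st.2.2) v = 1 / (D + 1) := by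
      rw [haff, h1]
      field_simp
    rw [hrz] at h5 ⊢
    rw [← h5, h6, abs_sub_comm] at h4
    exact h4

end Pool.HMS
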